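import Pool.Agent.Helper64.HG.Stmts

/-! `n` is attached to three pieces (MP_866009_co). -/

set_option autoImplicit false

namespace Pool.Agent.Helper64.HG

variable {V : Type}

/-- a path from `n` through the piece `K i` to a consecutive attachment `a` -/
structure Con1Arm (G : SimpleGraph V) (v n : V) (K : Set V) (a : V) (A : List V) : Prop where
  va : G.Adj v a
  ne : n ≠ a
  sub : ∀ x ∈ A, x ∈ K
  link : Link G n A a
  no : ∀ m, G.Adj v m → m ≠ n → m ≠ a → ∀ x ∈ A, ¬ G.Adj m x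
  len : 2 ≤ A.length

theorem con1_partner [Finite V] (T : Set V) (q : V → ℝ) (n : V) (h : ∃ a ∈ T, a ≠ n) :
    ∃ a ∈ T, a ≠ n ∧ ∀ m ∈ T, ¬ Btw q n m a := by
  have hf : (T \ {n}).Finite := Set.toFinite _
  have hne : (T \ {n}).Nonempty := by
    obtain ⟨a, ha, hn⟩ := h
    exact ⟨a, ha, hn⟩
  obtain ⟨a, ha, hmin⟩ := Set.exists_min_image _ (fun x => |q x - q n|) hf hne
  refine ⟨a, ha.1, ha.2, fun m hm hb => ?_⟩
  have hmn : m ≠ n := by
    rintro rfl
    rcases hb with ⟨h1, -⟩ | ⟨-, h1⟩ <;> exact lt_irrefl _ h1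
  have h1 := hmin m ⟨hm, hmn⟩
  change |q a - q n| ≤ |q m - q n| at h1
  rcases hb with ⟨h2, h3⟩ | ⟨h2, h3⟩
  · rw [abs_of_pos (by linarith), abs_of_pos (by linarith)] at h1
    linarith
  · rw [abs_of_neg (by linarith), abs_of_neg (by linarith)] at h1
    linarith

theorem con1_arm [Finite V] {G : SimpleGraph V} {v : V} {ι : Type} {K : ι → Set V}
    {q : ι → V → ℝ} (hG : Girth5 G) (hL : Loc G v K q) (i : ι) {n : V}
    (hn : n ∈ Att G v (K i)) (h : ∃ a ∈ Att G v (K i), a ≠ n) :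
    ∃ a A, Con1Arm G v n (K i) a A := by
  obtain ⟨a, ha, han, hb⟩ := con1_partner (Att G v (K i)) (q i) n h
  obtain ⟨A, hA, hlink, hm⟩ := hL.path i n hn a ha han.symm
  refine ⟨a, A, ha.1, han.symm, hA, hlink, ?_, ?_⟩
  · intro m hvm hmn hma x hx hadj
    have := (hm m hvm hmn hma).1 ⟨x, hx, hadj⟩
    exact hb m this.1 this.2
  · obtain ⟨hne, -, -, -, h1, h2⟩ := hlink
    rcases A with _ | ⟨x, _ | ⟨y, B⟩⟩
    · exact absurd rfl hne
    · exfalso
      have e1 : G.Adj n x := (h1 x (by simp)).2 (by simp)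
      have e2 : G.Adj a x := (h2 x (by simp)).2 (by simp)
      have e3 : x ∈ Far G v := hL.sub i (hA x (by simp))
      exact hG.2 v n x a e3.1.symm han.symm hn.1 e1 e2.symm ha.1.symm
    · simp

/-- the vertex `v` is far from the arm -/
theorem con1_v {G : SimpleGraph V} {v n : V} {K : Set V} (hK : K ⊆ Far G v) {a : V}
    {A : List V} (h : Con1Arm G v n K a A) : Anti G [v] A := by
  intro x hx y hy
  rw [List.mem_singleton] at hx
  subst hx
  have := hK (h.sub y hy)
  exact ⟨this.1.symm, this.2⟩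

theorem con1_a {G : SimpleGraph V} {v n : V} {K : Set V} (hK : K ⊆ Far G v) {a b : V}
    {A : List V} (h : Con1Arm G v n K a A) (hb : G.Adj v b) (hbn : b ≠ n) (hba : b ≠ a) :
    ∀ x ∈ A, b ≠ x ∧ ¬ G.Adj b x := by
  intro x hx
  refine ⟨?_, h.no b hb hbn hba x hx⟩
  rintro rfl
  exact (hK (h.sub b hx)).2 hb

theorem con1_snoc {G : SimpleGraph V} {v n : V} {K K' : Set V} (hG : Girth5 G)
    (hK : K ⊆ Far G v) (hK' : K' ⊆ Far G v) (hs : ∀ x ∈ K, ∀ y ∈ K', x ≠ y ∧ ¬ G.Adj x y)
    {a b : V} {A B : List V} (hA : Con1Arm G v n K a A) (hB : Con1Arm G v n K' b B)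
    (hab : a ≠ b) : Anti G (A ++ [a]) (B ++ [b]) := by
  intro x hx y hy
  rw [List.mem_append, List.mem_singleton] at hx hy
  rcases hx with hx | rfl
  · rcases hy with hy | rfl
    · exact hs x (hA.sub x hx) y (hB.sub y hy)
    · have := con1_a hK hA hB.va hB.ne.symm hab.symm x hx
      exact ⟨this.1.symm, fun h => this.2 h.symm⟩
  · rcases hy with hy | rfl
    · exact con1_a hK' hB hA.va hA.ne.symm hab y hy
    · exact ⟨hab, hG.1 x v y hA.va.symm hB.va⟩

/-- two partners are equal, the third is different -/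
theorem con1_E (h1 : ST_CNS) (h3 : ST_REV) {G : SimpleGraph V} {v n : V}
    {K1 K2 K3 : Set V} (hG : Girth5 G) (hn : G.Adj v n)
    (hK1 : K1 ⊆ Far G v) (hK2 : K2 ⊆ Far G v) (hK3 : K3 ⊆ Far G v)
    (s12 : ∀ x ∈ K1, ∀ y ∈ K2, x ≠ y ∧ ¬ G.Adj x y)
    (s31 : ∀ x ∈ K3, ∀ y ∈ K1, x ≠ y ∧ ¬ G.Adj x y)
    (s32 : ∀ x ∈ K3, ∀ y ∈ K2, x ≠ y ∧ ¬ G.Adj x y)
    {a c : V} {A B C : List V} (hA : Con1Arm G v n K1 a A) (hB : Con1Arm G v n K2 a B)
    (hC : Con1Arm G v n K3 c C) (hac : a ≠ c) : HasE G := by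
  have hnc : ¬ G.Adj n c := hG.1 n v c hn.symm hC.va
  refine ⟨v, n, a, c :: C.reverse, A, B, ?_⟩
  constructor
  · exact hn
  · exact hA.va
  · exact hA.ne
  · exact hG.1 n v a hn.symm hA.va
  · refine h1 V G v c n C.reverse hC.va (h3 V G n c C hC.link) ?_ hC.ne hnc
    intro x hx y hy
    exact con1_v hK3 hC x hx y (List.mem_reverse.1 hy)
  · exact hA.link
  · exact hB.link
  · intro x hx y hy
    rw [List.mem_cons, List.mem_reverse] at hx
    rcases hx with rfl | hx
    · exact con1_a hK1 hA hC.va hC.ne.symm hac.symm y hy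
    · exact s31 x (hC.sub x hx) y (hA.sub y hy)
  · intro x hx y hy
    rw [List.mem_cons, List.mem_reverse] at hx
    rcases hx with rfl | hx
    · exact con1_a hK2 hB hC.va hC.ne.symm hac.symm y hy
    · exact s32 x (hC.sub x hx) y (hB.sub y hy)
  · intro x hx y hy
    exact s12 x (hA.sub x hx) y (hB.sub y hy)
  · intro x hx y hy
    rw [List.mem_singleton] at hx
    subst hx
    rw [List.mem_cons, List.mem_reverse] at hy
    rcases hy with rfl | hy
    · exact ⟨hac, hG.1 x v y hA.va.symm hC.va⟩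
    · exact con1_a hK3 hC hA.va hA.ne.symm hac y hy
  · exact con1_v hK1 hA
  · exact con1_v hK2 hB
  · have := hC.len
    simp only [List.length_cons, List.length_reverse]
    omega
  · exact hA.len
  · exact hB.len

theorem st_CON1 (h1 : ST_CNS) (h2 : ST_SNC) (h3 : ST_REV) : ST_CON1 := by
  intro V _ G v ι K q hG hL i j k hij hik hjk n hni hnj hnk hi hj hk
  obtain ⟨a, A, hA⟩ := con1_arm hG hL i hni hi
  obtain ⟨b, B, hB⟩ := con1_arm hG hL j hnj hj
  obtain ⟨c, C, hC⟩ := con1_arm hG hL k hnk hk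
  have hvn : G.Adj v n := hni.1
  have sij := hL.sep i j hij
  have sik := hL.sep i k hik
  have sjk := hL.sep j k hjk
  have sji := hL.sep j i hij.symm
  have ski := hL.sep k i hik.symm
  have skj := hL.sep k j hjk.symm
  have Ki := hL.sub i
  have Kj := hL.sub j
  have Kk := hL.sub k
  by_cases hab : a = b
  · subst hab
    by_cases hac : a = c
    · subst hac
      left
      exact ⟨n, a, A, B, C, hA.ne, hG.1 n v a hvn.symm hA.va, hA.link, hB.link, hC.link,
        fun x hx y hy => sij x (hA.sub x hx) y (hB.sub y hy),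
        fun x hx y hy => sik x (hA.sub x hx) y (hC.sub y hy),
        fun x hx y hy => sjk x (hB.sub x hx) y (hC.sub y hy), hA.len, hB.len, hC.len⟩
    · right; right
      exact con1_E h1 h3 hG hvn Ki Kj Kk sij ski skj hA hB hC hac
  · by_cases hac : a = c
    · subst hac
      right; right
      exact con1_E h1 h3 hG hvn Ki Kk Kj sik sji sjk hA hC hB hab
    · by_cases hbc : b = c
      · subst hbc
        right; right
        exact con1_E h1 h3 hG hvn Kj Kk Ki sjk sij sik hB hC hA (fun h => hab h.symm)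
      · right; left
        have hl : ∀ (x : V) (X : List V) (T : Set V), T ⊆ Far G v → Con1Arm G v n T x X →
            Link G n (X ++ [x]) v ∧ 3 ≤ (X ++ [x]).length := by
          intro x X T hT hX
          refine ⟨h2 V G n x v X hX.link hX.va.symm (con1_v hT hX) hX.ne
            (hG.1 n v x hvn.symm hX.va), ?_⟩
          have := hX.len
          simp only [List.length_append, List.length_cons, List.length_nil]
          omega
        exact ⟨n, v, A ++ [a], B ++ [b], C ++ [c], hvn.symm, (hl a A _ Ki hA).1,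
          (hl b B _ Kj hB).1, (hl c C _ Kk hC).1, con1_snoc hG Ki Kj sij hA hB hab,
          con1_snoc hG Ki Kk sik hA hC hac, con1_snoc hG Kj Kk sjk hB hC hbc,
          (hl a A _ Ki hA).2, (hl b B _ Kj hB).2, (hl c C _ Kk hC).2⟩

end Pool.Agent.Helper64.HG
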